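import Pool.Agent.Helper57.SS.Goals

/-!
# Project SS (MP_9a4587_an): packet E1
-/

set_option autoImplicit false

namespace Pool.Agent.Helper2.SS

open MeasureTheory Filter Topology Pool.Agent.Helper57.SS

theorem gE1 : G_E1 := by
  intro hEL hHZ hZP hVN a b hW α _ μ _ T hT F hF ε hε
  have hF2 : MemLp F 2 μ := MemLp.of_bound hF.1.aestronglyMeasurable 1
    (ae_of_all _ fun x => by rw [Real.norm_eq_abs]; exact hF.2 x)
  have h1 := hEL hHZ hZP hVN a b hW α μ T (MeasurableEquiv.refl α) hT (MeasurePreserving.id μ)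
    (fun x => rfl) F hF2
  have h2 : ∀ᶠ N : ℕ in atTop, eLpNorm (fun x => (N : ℝ)⁻¹ * ∑ k ∈ Finset.range N,
      F ((⇑T)^[a k] ((⇑(MeasurableEquiv.refl α))^[b k] x)) - ∫ y, F y ∂μ) 2 μ < ENNReal.ofReal ε :=
    h1.eventually (gt_mem_nhds (ENNReal.ofReal_pos.2 hε))
  filter_upwards [h2] with N hN H hH
  have hid : ∀ (n : ℕ) (x : α), (⇑(MeasurableEquiv.refl α))^[n] x = x := by
    intro n x
    induction n with
    | zero => rfl
    | succ n ih => exact ih
  simp only [hid] at hN
  have hmF : ∀ n : ℕ, Measurable fun x => F ((⇑T)^[n] x) := fun n =>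
    hF.1.comp (T.measurable.iterate n)
  set D : α → ℝ := fun x => (N : ℝ)⁻¹ * ∑ k ∈ Finset.range N, F ((⇑T)^[a k] x) - ∫ y, F y ∂μ with hD
  have hDm : Measurable D :=
    ((Finset.measurable_fun_sum _ fun k _ => hmF (a k)).const_mul _).sub_const _
  have hHF : ∀ n : ℕ, Integrable (fun x => H x * F ((⇑T)^[n] x)) μ := fun n =>
    Integrable.of_bound (hH.1.mul (hmF n)).aestronglyMeasurable 1 (ae_of_all _ fun x => by
      rw [Real.norm_eq_abs, abs_mul]
      exact mul_le_one₀ (hH.2 x) (abs_nonneg _) (hF.2 _))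
  have hHi : Integrable H μ := Integrable.of_bound hH.1.aestronglyMeasurable 1
    (ae_of_all _ fun x => by rw [Real.norm_eq_abs]; exact hH.2 x)
  have hDi : Integrable D μ := by
    refine Integrable.sub (Integrable.const_mul (integrable_finsetSum _ fun k _ => ?_) _)
      (integrable_const _)
    exact Integrable.of_bound (hmF (a k)).aestronglyMeasurable 1
      (ae_of_all _ fun x => by rw [Real.norm_eq_abs]; exact hF.2 _)
  have h3 : (N : ℝ)⁻¹ * ∑ k ∈ Finset.range N, ∫ x, H x * F ((⇑T)^[a k] x) ∂μ -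
      (∫ x, H x ∂μ) * ∫ x, F x ∂μ = ∫ x, H x * D x ∂μ := by
    rw [← integral_finsetSum _ (fun k _ => hHF (a k)), ← integral_const_mul, ← integral_mul_const,
      ← integral_sub]
    · congr 1
      funext x
      simp only [hD]
      rw [← Finset.mul_sum]
      ring
    · exact (integrable_finsetSum _ fun k _ => hHF (a k)).const_mul _
    · exact hHi.mul_const _
  rw [h3]
  have h4 : |∫ x, H x * D x ∂μ| ≤ ∫ x, |D x| ∂μ := by
    refine (abs_integral_le_integral_abs).trans (integral_mono_of_nonneg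
      (ae_of_all _ fun x => abs_nonneg _) hDi.abs (ae_of_all _ fun x => ?_))
    show |H x * D x| ≤ |D x|
    rw [abs_mul]
    exact mul_le_of_le_one_left (abs_nonneg _) (hH.2 x)
  refine h4.trans ?_
  have h5 : eLpNorm D 1 μ ≤ ENNReal.ofReal ε :=
    (eLpNorm_le_eLpNorm_of_exponent_le (by norm_num) hDm.aestronglyMeasurable).trans hN.le
  have h6 : ∫ x, |D x| ∂μ = (eLpNorm D 1 μ).toReal := by
    rw [eLpNorm_one_eq_lintegral_enorm, ← integral_norm_eq_lintegral_enorm hDm.aestronglyMeasurable]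
    rfl
  rw [h6]
  exact ENNReal.toReal_le_of_le_ofReal hε.le h5

end Pool.Agent.Helper2.SS
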